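import Mathlib
import Pool.Agent.H765.GK.Def

/-! Satellites by plumbing annuli and by cabling: definitions. -/

namespace Pool.Agent.H765.DB

open PowerSeries GK

noncomputable section

/-- The quantum factorial `[n]! = [1] [2] ... [n]`. -/
def qfac (n : ℕ) : ℚ⟦X⟧ := ∏ j ∈ Finset.range n, unknotJ (j + 1)

/-- The coefficients of an annulus with core `K` (unnormalised coloured Jones function `J`) and
`m` full twists, with `v = e^h`:
`b_i = [i]! ∑_{k ≤ i} (-1)^{i-k} v^{2 m k (k+1)} J_{2k+1} / ([i-k]! [i+k+1]!)`. -/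
def annulus (J : ℤ → ℚ⟦X⟧) (m : ℤ) (i : ℕ) : ℚ⟦X⟧ :=
  qfac i * ∑ k ∈ Finset.range (i + 1), (-1) ^ (i - k) * hexp (2 * m * k * (k + 1)) *
    J (2 * k + 1) * (qfac (i - k) * qfac (i + k + 1))⁻¹

/-- Habiro's formula for the boundary of the plumbing of two annuli:
`[N] ∑_{i < |N|} (-1)^i ∏_{j=1}^i [N+j] [N-j] b_i b'_i`. -/
def plumbJ (J : ℤ → ℚ⟦X⟧) (m : ℤ) (J' : ℤ → ℚ⟦X⟧) (m' : ℤ) (N : ℤ) : ℚ⟦X⟧ :=
  unknotJ N * ∑ i ∈ Finset.range N.natAbs, (-1) ^ i *
    (∏ j ∈ Finset.range i, unknotJ (N + (j + 1)) * unknotJ (N - (j + 1))) *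
    (annulus J m i * annulus J' m' i)

/-- The knots obtained from the unknot and from given knots (the seeds, indexed by `ι`) by
`(p, ± 1)`-cabling and by generalised doubling: `plumb K m L n` is the boundary of the plumbing
of the annulus with core `K` and `m` full twists and the annulus with core `L` and `n` full
twists. So `plumb K m unknot (± 1)` are the `m`-twisted Whitehead doubles of `K`. -/
inductive Knot (ι : Type) : Type
  | unknot : Knot ι
  | seed (i : ι) : Knot ι
  | cable (p : ℕ) (ε : ℤ) (hp : 2 ≤ p) (hε : ε = 1 ∨ ε = -1) (K : Knot ι) : Knot ι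
  | plumb (K : Knot ι) (m : ℤ) (L : Knot ι) (n : ℤ) : Knot ι

variable {ι : Type}

/-- The unnormalised `N`-coloured Jones polynomial (`[N]` for the unknot) as a power series in
`h`, where `q^{1/2} = e^h`; `F i` is the coloured Jones function of the seed `i`. -/
def colJ (F : ι → ℤ → ℚ⟦X⟧) : Knot ι → ℤ → ℚ⟦X⟧
  | .unknot => unknotJ
  | .seed i => F i
  | .cable p ε _ _ K => cableJ p ε (colJ F K)
  | .plumb K m L n => plumbJ (colJ F K) m (colJ F L) n

/-- The unknots among these knots (the seeds are knotted): a cable is trivial if its companion is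
trivial, and the boundary of a plumbing is trivial if one of the two annuli is unknotted and
untwisted. -/
def Knot.Trivial : Knot ι → Prop
  | .unknot => True
  | .seed _ => False
  | .cable _ _ _ _ K => K.Trivial
  | .plumb K m L n => (K.Trivial ∧ m = 0) ∨ (L.Trivial ∧ n = 0)

/-- `J(N) = [N] + c N (N^2 - 1) h^d + O(h^{d+1})` for all `N`. -/
def Lead (J : ℤ → ℚ⟦X⟧) (c : ℚ) (d : ℕ) : Prop :=
  ∀ N : ℤ, X ^ (d + 1) ∣ J N - (unknotJ N + C (c * (N * (N ^ 2 - 1))) * X ^ d)

/-- The degree of the first non-vanishing coefficient. -/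
def Knot.deg (d : ι → ℕ) : Knot ι → ℕ
  | .unknot => 0
  | .seed i => d i
  | .cable _ _ _ _ K => K.deg d
  | .plumb K m L n => (if m = 0 then K.deg d else 1) + (if n = 0 then L.deg d else 1)

/-- The first non-vanishing coefficient. -/
def Knot.lead (c : ι → ℚ) : Knot ι → ℚ
  | .unknot => 0
  | .seed i => c i
  | .cable p _ _ _ K => p ^ 2 * K.lead c
  | .plumb K m L n =>
      -16 * (if m = 0 then K.lead c else m / 2) * (if n = 0 then L.lead c else n / 2)

end

end Pool.Agent.H765.DB
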