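import Mathlib
import Pool.Agent.H765.GK.Fin
import Pool.Agent.H765.DB.Def

/-! The functional of Habiro's expansion. -/

namespace Pool.Agent.H765.DB

open PowerSeries GK

noncomputable section

theorem constCoeff_qfac (n : ℕ) : constantCoeff (qfac n) = (n.factorial : ℚ) := by
  unfold qfac
  rw [map_prod]
  induction n with
  | zero => simp
  | succ n ih =>
    rw [Finset.prod_range_succ, ih, coeff_zero_unknotJ, Nat.factorial_succ]
    push_cast
    ring

theorem constCoeff_qfac_ne (n : ℕ) : constantCoeff (qfac n) ≠ 0 := by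
  rw [constCoeff_qfac]
  exact_mod_cast n.factorial_ne_zero

theorem qfac_zero : qfac 0 = 1 := by simp [qfac]

theorem qfac_succ (n : ℕ) : qfac (n + 1) = qfac n * unknotJ (n + 1) := by
  unfold qfac
  rw [Finset.prod_range_succ]

theorem unknotJ_one : unknotJ 1 = 1 := by
  have := unknotJ_natCast 1
  rw [symSum_one] at this
  simpa [hexp_zero] using this

theorem qfac_one : qfac 1 = 1 := by
  rw [show (1 : ℕ) = 0 + 1 from rfl, qfac_succ, qfac_zero]
  simp [unknotJ_one]

/-- `T_i(g) = ∑_{k ≤ i} (-1)^{i-k} [2k+1] g_k / ([i-k]! [i+k+1]!)` -/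
def T (i : ℕ) (g : ℕ → ℚ⟦X⟧) : ℚ⟦X⟧ :=
  ∑ k ∈ Finset.range (i + 1), (-1) ^ (i - k) * unknotJ (2 * k + 1) * g k *
    (qfac (i - k) * qfac (i + k + 1))⁻¹

/-- `φ_r(k) = ∏_{j<r} [k-j] [k+j+1]` -/
def ph (r k : ℕ) : ℚ⟦X⟧ := ∏ j ∈ Finset.range r, unknotJ ((k : ℤ) - j) * unknotJ ((k : ℤ) + j + 1)

theorem ph_zero (k : ℕ) : ph 0 k = 1 := by simp [ph]

theorem ph_succ (r k : ℕ) :
    ph (r + 1) k = ph r k * (unknotJ ((k : ℤ) - r) * unknotJ ((k : ℤ) + r + 1)) := by
  unfold ph
  rw [Finset.prod_range_succ]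

theorem ph_eq_zero {r k : ℕ} (h : k < r) : ph r k = 0 := by
  unfold ph
  apply Finset.prod_eq_zero (Finset.mem_range.mpr h)
  simp [unknotJ_zero]

/-- `[a-b][a+b+1] = [a][a+1] - [b][b+1]` -/
theorem q_diff (a b : ℤ) : unknotJ (a - b) * unknotJ (a + b + 1) =
    unknotJ a * unknotJ (a + 1) - unknotJ b * unknotJ (b + 1) := by
  have hD := D_ne
  apply mul_left_cancel₀ hD
  apply mul_left_cancel₀ hD
  have h := unknotJ_mul
  have e : ∀ x y : ℤ, (hexp 1 - hexp (-1)) * ((hexp 1 - hexp (-1)) * (unknotJ x * unknotJ y)) =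
      hexp (x + y) + hexp (-(x + y)) - hexp (x - y) - hexp (-(x - y)) := by
    intro x y
    have : (hexp 1 - hexp (-1)) * ((hexp 1 - hexp (-1)) * (unknotJ x * unknotJ y)) =
        ((hexp 1 - hexp (-1)) * unknotJ x) * ((hexp 1 - hexp (-1)) * unknotJ y) := by ring
    rw [this, h, h, sub_mul, mul_sub, mul_sub, ← hexp_add, ← hexp_add, ← hexp_add, ← hexp_add]
    rw [show ((x : ℚ) + -(y : ℚ)) = x - y by ring, show (-(x : ℚ) + y) = -(x - y) by ring,
      show (-(x : ℚ) + -(y : ℚ)) = -(x + y) by ring]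
    ring
  rw [mul_sub, mul_sub, e, e, e]
  push_cast
  rw [show ((a : ℚ) - b + (a + b + 1)) = a + (a + 1) by ring,
    show ((a : ℚ) - b - (a + b + 1)) = -(b + (b + 1)) by ring,
    show ((a : ℚ) - (a + 1)) = b - (b + 1) by ring]
  rw [neg_neg]
  ring

theorem T_congr {i : ℕ} {g g' : ℕ → ℚ⟦X⟧} (h : ∀ k ≤ i, g k = g' k) : T i g = T i g' := by
  unfold T
  apply Finset.sum_congr rfl
  intro k hk
  rw [h k (by simpa [Nat.lt_succ_iff] using hk)]

theorem T_add (i : ℕ) (g g' : ℕ → ℚ⟦X⟧) : T i (fun k => g k + g' k) = T i g + T i g' := by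
  unfold T
  rw [← Finset.sum_add_distrib]
  apply Finset.sum_congr rfl
  intro k _
  ring

theorem T_mul (i : ℕ) (a : ℚ⟦X⟧) (g : ℕ → ℚ⟦X⟧) : T i (fun k => a * g k) = a * T i g := by
  unfold T
  rw [Finset.mul_sum]
  apply Finset.sum_congr rfl
  intro k _
  ring

theorem T_ph_self (i : ℕ) : T i (ph i) = 1 := by
  unfold T
  rw [Finset.sum_range_succ, Finset.sum_eq_zero, zero_add]
  · rw [Nat.sub_self, pow_zero, one_mul, qfac_zero, one_mul]
    have h1 : unknotJ (2 * i + 1) * ph i i = qfac (i + i + 1) := by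
      have h2 : ∀ r ≤ i, ph r i * qfac (i - r) = qfac (i + r) := by
        intro r
        induction r with
        | zero => intro _; simp [ph_zero]
        | succ r ih =>
          intro hr
          have h3 := ih (by omega)
          obtain ⟨s, hs⟩ : ∃ s, i - r = s + 1 := ⟨i - r - 1, by omega⟩
          have h4 : i - (r + 1) = s := by omega
          rw [h4, ph_succ, show i + (r + 1) = (i + r) + 1 by ring, qfac_succ, ← h3, hs, qfac_succ]
          have h5 : ((i : ℤ) - r) = (s : ℤ) + 1 := by omega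
          rw [h5]
          push_cast
          ring
      have h3 := h2 i le_rfl
      rw [Nat.sub_self, qfac_zero, mul_one] at h3
      rw [h3, qfac_succ, mul_comm]
      congr 2
      push_cast
      ring
    rw [h1]
    exact PowerSeries.mul_inv_cancel _ (constCoeff_qfac_ne _)
  · intro k hk
    rw [ph_eq_zero (Finset.mem_range.mp hk)]
    ring

theorem inv_qfac_rel {i k : ℕ} (hk : k < i) :
    (unknotJ ((i : ℤ) - k) * unknotJ ((i : ℤ) + k + 1)) * (qfac (i - k) * qfac (i + k + 1))⁻¹ =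
      (qfac (i - 1 - k) * qfac (i - 1 + k + 1))⁻¹ := by
  obtain ⟨s, hs⟩ : ∃ s, i - k = s + 1 := ⟨i - k - 1, by omega⟩
  have h1 : i - 1 - k = s := by omega
  have h2 : i - 1 + k + 1 = i + k := by omega
  rw [h1, h2, hs, qfac_succ, qfac_succ]
  have h3 : ((i : ℤ) - k) = (s : ℤ) + 1 := by omega
  rw [h3]
  have hc : constantCoeff (qfac s * qfac (i + k)) ≠ 0 := by
    rw [map_mul]
    exact mul_ne_zero (constCoeff_qfac_ne _) (constCoeff_qfac_ne _)
  have hd : constantCoeff (qfac s * unknotJ (s + 1) * (qfac (i + k) * unknotJ ((i + k : ℕ) + 1)))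
      ≠ 0 := by
    rw [map_mul, map_mul, map_mul, coeff_zero_unknotJ, coeff_zero_unknotJ]
    refine mul_ne_zero (mul_ne_zero (constCoeff_qfac_ne _) ?_)
      (mul_ne_zero (constCoeff_qfac_ne _) ?_)
    · push_cast; positivity
    · push_cast; positivity
  symm
  rw [PowerSeries.inv_eq_iff_mul_eq_one hc]
  have e := PowerSeries.mul_inv_cancel _ hd
  rw [← e]
  push_cast
  ring

/-- the recursion of the functionals -/
theorem T_rec (i r : ℕ) (hi : 1 ≤ i) :
    (unknotJ ((i : ℤ) - r) * unknotJ ((i : ℤ) + r + 1)) * T i (ph r) =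
      T i (ph (r + 1)) - T (i - 1) (ph r) := by
  have h1 : ∀ k : ℕ, ph (r + 1) k = (unknotJ ((i : ℤ) - r) * unknotJ ((i : ℤ) + r + 1)) * ph r k -
      (unknotJ ((i : ℤ) - k) * unknotJ ((i : ℤ) + k + 1)) * ph r k := by
    intro k
    rw [ph_succ, q_diff, q_diff, q_diff]
    ring
  have h2 : T i (ph (r + 1)) = (unknotJ ((i : ℤ) - r) * unknotJ ((i : ℤ) + r + 1)) * T i (ph r) -
      T i (fun k => (unknotJ ((i : ℤ) - k) * unknotJ ((i : ℤ) + k + 1)) * ph r k) := by
    rw [← T_mul]
    unfold T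
    rw [← Finset.sum_sub_distrib]
    apply Finset.sum_congr rfl
    intro k _
    rw [h1 k]
    ring
  have h3 : T i (fun k => (unknotJ ((i : ℤ) - k) * unknotJ ((i : ℤ) + k + 1)) * ph r k) =
      - T (i - 1) (ph r) := by
    unfold T
    rw [Finset.sum_range_succ]
    have e1 : unknotJ ((i : ℤ) - (i : ℕ)) = 0 := by simp [unknotJ_zero]
    beta_reduce
    rw [e1, show i - 1 + 1 = i by omega]
    rw [zero_mul, zero_mul, mul_zero, zero_mul, add_zero, ← Finset.sum_neg_distrib]
    apply Finset.sum_congr rfl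
    intro k hk
    have hk' := Finset.mem_range.mp hk
    rw [← inv_qfac_rel hk', show i - k = (i - 1 - k) + 1 by omega, pow_succ]
    ring
  rw [h2, h3]
  ring

theorem T_ph_lt (δ : ℕ) : ∀ i r : ℕ, i = r + δ + 1 → T i (ph r) = 0 := by
  induction δ with
  | zero =>
    intro i r h
    have h1 := T_rec i r (by omega)
    have h2 : T i (ph (r + 1)) = 1 := by rw [show r + 1 = i by omega]; exact T_ph_self i
    have h3 : T (i - 1) (ph r) = 1 := by rw [show i - 1 = r by omega]; exact T_ph_self r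
    rw [h2, h3, sub_self] at h1
    rcases mul_eq_zero.mp h1 with h4 | h4
    · exfalso
      have := congrArg constantCoeff h4
      rw [map_mul, coeff_zero_unknotJ, coeff_zero_unknotJ, map_zero] at this
      subst h
      rcases mul_eq_zero.mp this with h5 | h5
      · push_cast at h5
        linarith
      · push_cast at h5
        have : (0 : ℚ) ≤ r := Nat.cast_nonneg r
        linarith
    · exact h4
  | succ δ ih =>
    intro i r h
    have h1 := T_rec i r (by omega)
    rw [ih i (r + 1) (by omega), ih (i - 1) r (by omega), sub_self] at h1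
    rcases mul_eq_zero.mp h1 with h4 | h4
    · exfalso
      have := congrArg constantCoeff h4
      rw [map_mul, coeff_zero_unknotJ, coeff_zero_unknotJ, map_zero] at this
      subst h
      rcases mul_eq_zero.mp this with h5 | h5
      · push_cast at h5
        have : (0 : ℚ) ≤ δ := Nat.cast_nonneg δ
        linarith
      · push_cast at h5
        have : (0 : ℚ) ≤ r := Nat.cast_nonneg r
        have : (0 : ℚ) ≤ δ := Nat.cast_nonneg δ
        linarith
    · exact h4

/-- `T_i(1) = 0` for `i ≥ 1`. -/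
theorem T_one {i : ℕ} (hi : 1 ≤ i) : T i (fun _ => 1) = 0 := by
  have := T_ph_lt (i - 1) i 0 (by omega)
  rw [← this]
  exact T_congr fun k _ => (ph_zero k).symm

theorem T_zero (g : ℕ → ℚ⟦X⟧) : T 0 g = g 0 := by
  unfold T
  simp [qfac_zero, qfac_one, unknotJ_one]

end

end Pool.Agent.H765.DB
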