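import Mathlib
import Pool.Agent.H765.DB.Tf

/-! Leading terms under plumbing and cabling. -/

namespace Pool.Agent.H765.DB

open PowerSeries GK

noncomputable section

theorem dvd_of_eq_of_dvd {a b c : ℚ⟦X⟧} (h : b = c) (h' : a ∣ c) : a ∣ b := h ▸ h'

/-- `J` is odd and `1` at `N = 1` -/
structure Adm (J : ℤ → ℚ⟦X⟧) : Prop where
  odd : ∀ N, J (-N) = - J N
  one : J 1 = 1

theorem adm_unknotJ : Adm unknotJ := ⟨unknotJ_neg, unknotJ_one⟩

theorem dvd_hexp_lin (b : ℚ) : (X : ℚ⟦X⟧) ^ 2 ∣ hexp b - (1 + C b * X) := by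
  rw [X_pow_dvd_iff]
  intro m hm
  interval_cases m
  · rw [map_sub, coeff_hexp, map_add, coeff_one]
    simp
  · rw [map_sub, coeff_hexp, map_add, coeff_one]
    simp

theorem dvd_C_sub {f : ℚ⟦X⟧} {a : ℚ} (h : constantCoeff f = a) : (X : ℚ⟦X⟧) ∣ C a - f := by
  rw [X_dvd_iff, map_sub, h]
  simp

/-- the leading term of a framed core -/
def AL (J : ℤ → ℚ⟦X⟧) (m : ℤ) (c : ℚ) (d : ℕ) : Prop :=
  ∀ k : ℕ, X ^ (d + 1) ∣ hexp (2 * m * k * (k + 1)) * J (2 * k + 1) -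
    unknotJ (2 * k + 1) * (1 + C (4 * c * (k * (k + 1))) * X ^ d)

theorem AL_untwisted {J : ℤ → ℚ⟦X⟧} {c : ℚ} {d : ℕ} (h : Lead J c d) : AL J 0 c d := by
  intro k
  have h1 := h (2 * k + 1)
  have e0 : hexp (2 * ((0 : ℤ) : ℚ) * k * (k + 1)) = 1 := by
    rw [show (2 * ((0 : ℤ) : ℚ) * k * (k + 1)) = 0 by simp, hexp_zero]
  rw [e0, one_mul]
  have h2 : (X : ℚ⟦X⟧) ∣ C ((2 * k + 1) * (4 * c * (k * (k + 1)))) -
      unknotJ (2 * k + 1) * C (4 * c * (k * (k + 1))) := by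
    apply dvd_C_sub
    rw [map_mul, coeff_zero_unknotJ]
    simp
  have h3 : (X : ℚ⟦X⟧) ^ (d + 1) ∣ X ^ d * (C ((2 * k + 1) * (4 * c * (k * (k + 1)))) -
      unknotJ (2 * k + 1) * C (4 * c * (k * (k + 1)))) := by
    rw [pow_succ]
    exact mul_dvd_mul_left _ h2
  have h4 := dvd_add h1 h3
  refine (dvd_of_eq_of_dvd ?_ h4)
  have e1 : (C (c * (((2 * k + 1 : ℤ) : ℚ) * (((2 * k + 1 : ℤ) : ℚ) ^ 2 - 1))) : ℚ⟦X⟧) =
      C ((2 * k + 1) * (4 * c * (k * (k + 1)))) := by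
    congr 1
    push_cast
    ring
  rw [e1]
  ring

theorem AL_twisted {J : ℤ → ℚ⟦X⟧} (h : ∀ N, X ^ 2 ∣ J N - unknotJ N) (m : ℤ) :
    AL J m (m / 2) 1 := by
  intro k
  have h1 := dvd_hexp_lin (2 * m * k * (k + 1))
  have h2 := h (2 * k + 1)
  have h3 : (X : ℚ⟦X⟧) ^ 2 ∣ hexp (2 * m * k * (k + 1)) * (J (2 * k + 1) - unknotJ (2 * k + 1)) +
      unknotJ (2 * k + 1) * (hexp (2 * m * k * (k + 1)) -
        (1 + C ((2 * m * k * (k + 1) : ℚ)) * X)) :=
    dvd_add (Dvd.dvd.mul_left h2 _) (Dvd.dvd.mul_left h1 _)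
  refine (dvd_of_eq_of_dvd ?_ h3)
  rw [show (4 * ((m : ℚ) / 2) * (k * (k + 1))) = 2 * m * k * (k + 1) by ring]
  ring

theorem annulus_zero {J : ℤ → ℚ⟦X⟧} (h : J 1 = 1) (m : ℤ) : annulus J m 0 = 1 := by
  unfold annulus
  rw [Finset.sum_range_one]
  simp only [Nat.cast_zero, mul_zero, zero_add, mul_one, Nat.sub_zero, pow_zero, add_zero]
  rw [hexp_zero, h, qfac_zero, qfac_one]
  simp

theorem annulus_unknot (i : ℕ) (hi : 1 ≤ i) : annulus unknotJ 0 i = 0 := by
  unfold annulus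
  have := T_one hi
  unfold T at this
  rw [← mul_zero (qfac i), ← this]
  congr 1
  apply Finset.sum_congr rfl
  intro k _
  rw [show (2 * ((0 : ℤ) : ℚ) * k * (k + 1)) = 0 by simp, hexp_zero]
  ring

theorem T_ph_one {i : ℕ} (hi : 1 ≤ i) : T i (ph 1) = if i = 1 then 1 else 0 := by
  split_ifs with h
  · subst h; exact T_ph_self 1
  · exact T_ph_lt (i - 2) i 1 (by omega)

theorem ph_one_const (k : ℕ) : constantCoeff (ph 1 k) = (k * (k + 1) : ℚ) := by
  rw [show (1 : ℕ) = 0 + 1 from rfl, ph_succ, ph_zero, one_mul, map_mul, coeff_zero_unknotJ,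
    coeff_zero_unknotJ]
  push_cast
  ring

theorem annulus_lead {J : ℤ → ℚ⟦X⟧} {m : ℤ} {c : ℚ} {d : ℕ} (h : AL J m c d) {i : ℕ}
    (hi : 1 ≤ i) : X ^ (d + 1) ∣ annulus J m i - (if i = 1 then C (4 * c) * X ^ d else 0) := by
  have h1 : X ^ (d + 1) ∣ annulus J m i -
      qfac i * T i (fun k => 1 + C (4 * c * (k * (k + 1))) * X ^ d) := by
    unfold annulus T
    rw [← mul_sub, ← Finset.sum_sub_distrib]
    apply Dvd.dvd.mul_left
    apply Finset.dvd_sum
    intro k _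
    have := h k
    refine dvd_of_eq_of_dvd ?_ (Dvd.dvd.mul_left this ((-1) ^ (i - k) *
      (qfac (i - k) * qfac (i + k + 1))⁻¹))
    ring
  have h2 : T i (fun k => 1 + C (4 * c * (k * (k + 1))) * X ^ d) =
      C (4 * c) * X ^ d * T i (fun k => C ((k * (k + 1) : ℚ))) := by
    rw [T_add i (fun _ => 1), T_one hi, zero_add, ← T_mul]
    apply T_congr
    intro k _
    rw [show (4 * c * (k * (k + 1))) = (4 * c) * ((k * (k + 1)) : ℚ) by ring, map_mul]
    ring
  have h3 : (X : ℚ⟦X⟧) ∣ T i (fun k => C ((k * (k + 1) : ℚ))) - T i (ph 1) := by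
    unfold T
    rw [← Finset.sum_sub_distrib]
    apply Finset.dvd_sum
    intro k _
    have := dvd_C_sub (ph_one_const k)
    refine dvd_of_eq_of_dvd ?_ (Dvd.dvd.mul_left this ((-1) ^ (i - k) * unknotJ (2 * k + 1) *
      (qfac (i - k) * qfac (i + k + 1))⁻¹))
    ring
  have h4 : X ^ (d + 1) ∣ qfac i * T i (fun k => 1 + C (4 * c * (k * (k + 1))) * X ^ d) -
      (if i = 1 then C (4 * c) * X ^ d else 0) := by
    have e : qfac i * T i (fun k => 1 + C (4 * c * (k * (k + 1))) * X ^ d) -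
        (if i = 1 then C (4 * c) * X ^ d else 0) =
        (qfac i * C (4 * c)) * (X ^ d *
          (T i (fun k => C ((k * (k + 1) : ℚ))) - T i (ph 1))) := by
      rw [h2, T_ph_one hi]
      split_ifs with h5
      · subst h5
        rw [qfac_one]
        ring
      · ring
    rw [e]
    apply Dvd.dvd.mul_left
    rw [pow_succ]
    exact mul_dvd_mul_left _ h3
  have h5 := dvd_add h1 h4
  refine dvd_of_eq_of_dvd ?_ h5
  ring

theorem plumb_zero (J J' : ℤ → ℚ⟦X⟧) (m m' : ℤ) : plumbJ J m J' m' 0 = 0 := by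
  unfold plumbJ
  simp

theorem plumb_one {J J' : ℤ → ℚ⟦X⟧} (h : J 1 = 1) (h' : J' 1 = 1) (m m' : ℤ) :
    plumbJ J m J' m' 1 = 1 := by
  unfold plumbJ
  rw [show (1 : ℤ).natAbs = 1 from rfl, Finset.sum_range_one, annulus_zero h, annulus_zero h']
  simp [unknotJ_one]

theorem plumb_neg (J J' : ℤ → ℚ⟦X⟧) (m m' : ℤ) (N : ℤ) :
    plumbJ J m J' m' (-N) = - plumbJ J m J' m' N := by
  unfold plumbJ
  rw [unknotJ_neg, Int.natAbs_neg, neg_mul]
  congr 2
  apply Finset.sum_congr rfl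
  intro i _
  congr 2
  apply Finset.prod_congr rfl
  intro j _
  rw [show (-N + ((j : ℤ) + 1)) = -(N - (j + 1)) by ring,
    show (-N - ((j : ℤ) + 1)) = -(N + (j + 1)) by ring, unknotJ_neg, unknotJ_neg]
  ring

theorem plumb_trivial {J J' : ℤ → ℚ⟦X⟧} (h : J 1 = 1) (h' : J' 1 = 1) (m m' : ℤ)
    (ht : ∀ i, 1 ≤ i → annulus J m i * annulus J' m' i = 0) : plumbJ J m J' m' = unknotJ := by
  funext N
  rcases eq_or_ne N 0 with h0 | h0
  · rw [h0, plumb_zero, unknotJ_zero]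
  unfold plumbJ
  obtain ⟨M, hM⟩ : ∃ M, N.natAbs = M + 1 := ⟨N.natAbs - 1, by omega⟩
  rw [hM, Finset.sum_range_succ', Finset.sum_eq_zero, zero_add, annulus_zero h, annulus_zero h']
  · simp
  · intro i _
    rw [ht (i + 1) (by omega), mul_zero]

theorem plumb_lead {J J' : ℤ → ℚ⟦X⟧} {m m' : ℤ} {c c' : ℚ} {d d' : ℕ} (h1 : J 1 = 1)
    (h1' : J' 1 = 1) (h : AL J m c d) (h' : AL J' m' c' d') :
    Lead (plumbJ J m J' m') (-16 * c * c') (d + d') := by
  intro N
  obtain hN | hN | hN : N.natAbs = 0 ∨ N.natAbs = 1 ∨ 2 ≤ N.natAbs := by omega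
  · have : N = 0 := by omega
    subst this
    rw [plumb_zero, unknotJ_zero]
    simp
  · obtain rfl | rfl : N = 1 ∨ N = -1 := by omega
    · rw [plumb_one h1 h1', unknotJ_one]
      simp
    · rw [plumb_neg, plumb_one h1 h1', unknotJ_neg, unknotJ_one]
      simp
  · obtain ⟨M, hM⟩ : ∃ M, N.natAbs = M + 2 := ⟨N.natAbs - 2, by omega⟩
    unfold plumbJ
    rw [hM, Finset.sum_range_succ', Finset.sum_range_succ']
    simp only [zero_add, pow_zero, Finset.prod_range_zero, Finset.prod_range_one, pow_one,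
      one_mul]
    rw [annulus_zero h1, annulus_zero h1', mul_one]
    -- the tail
    have ht : X ^ (d + d' + 1) ∣ ∑ i ∈ Finset.range M, (-1) ^ (i + 1 + 1) *
        (∏ j ∈ Finset.range (i + 1 + 1), unknotJ (N + (j + 1)) * unknotJ (N - (j + 1))) *
        (annulus J m (i + 1 + 1) * annulus J' m' (i + 1 + 1)) := by
      apply Finset.dvd_sum
      intro i _
      apply Dvd.dvd.mul_left
      have a1 := annulus_lead h (i := i + 1 + 1) (by omega)
      have a2 := annulus_lead h' (i := i + 1 + 1) (by omega)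
      rw [if_neg (by omega), sub_zero] at a1 a2
      have := mul_dvd_mul a1 a2
      rw [← pow_add] at this
      exact (pow_dvd_pow _ (by omega)).trans this
    have a1 := annulus_lead h (i := 1) le_rfl
    have a2 := annulus_lead h' (i := 1) le_rfl
    rw [if_pos rfl] at a1 a2
    obtain ⟨r, hr⟩ := a1
    obtain ⟨s, hs⟩ := a2
    have hb : annulus J m 1 * annulus J' m' 1 - C (16 * c * c') * X ^ (d + d') =
        X ^ (d + d' + 1) * (C (4 * c) * s + C (4 * c') * r + X * r * s) := by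
      have e1 : annulus J m 1 = C (4 * c) * X ^ d + X ^ (d + 1) * r := by
        rw [← hr]; ring
      have e2 : annulus J' m' 1 = C (4 * c') * X ^ d' + X ^ (d' + 1) * s := by
        rw [← hs]; ring
      rw [e1, e2, show (16 * c * c') = (4 * c) * (4 * c') by ring, map_mul C (4 * c) (4 * c')]
      ring
    -- the main term
    have hm : (X : ℚ⟦X⟧) ∣ C (16 * c * c' * (N * (N ^ 2 - 1))) -
        unknotJ N * (unknotJ (N + 1) * unknotJ (N - 1)) * C (16 * c * c') := by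
      apply dvd_C_sub
      rw [map_mul, map_mul, map_mul, coeff_zero_unknotJ, coeff_zero_unknotJ, coeff_zero_unknotJ]
      simp
      ring
    obtain ⟨t, ht'⟩ := ht
    obtain ⟨w, hw⟩ := hm
    rw [ht']
    have hb' : annulus J m 1 * annulus J' m' 1 = C (16 * c * c') * X ^ (d + d') +
        X ^ (d + d' + 1) * (C (4 * c) * s + C (4 * c') * r + X * r * s) := by
      rw [← hb]; ring
    rw [hb']
    have e3 : (C (-16 * c * c' * (N * ((N : ℚ) ^ 2 - 1))) : ℚ⟦X⟧) =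
        - C (16 * c * c' * (N * (N ^ 2 - 1))) := by
      rw [← map_neg]
      congr 1
      ring
    have hw' : (C (16 * c * c' * (N * ((N : ℚ) ^ 2 - 1))) : ℚ⟦X⟧) =
        unknotJ N * (unknotJ (N + 1) * unknotJ (N - 1)) * C (16 * c * c') + X * w := by
      rw [← hw]; ring
    rw [e3, hw']
    refine ⟨unknotJ N * t - unknotJ N * (unknotJ (N + 1) * unknotJ (N - 1)) *
      (C (4 * c) * s + C (4 * c') * r + X * r * s) + w, ?_⟩
    simp only [Nat.cast_zero, zero_add]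
    ring

end

end Pool.Agent.H765.DB
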