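import Mathlib
import Pool.Agent.H765.DB.Lead

/-! The Jones polynomial detects the unknot among these knots. -/

namespace Pool.Agent.H765.DB

open PowerSeries GK

noncomputable section

theorem symSum_cubes (p : ℕ) (n : ℕ) :
    symSum (fun j : ℤ => ((p * j + 1 : ℚ) * ((p * j + 1 : ℚ) ^ 2 - 1))) n =
      p ^ 2 * (n * ((n : ℚ) ^ 2 - 1)) := by
  induction n using Nat.strong_induction_on with
  | _ n ih =>
    match n, ih with
    | 0, _ => simp [symSum_zero]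
    | 1, _ => simp [symSum_one]
    | n + 2, ih =>
      rw [symSum_add_two, ih n (by omega)]
      push_cast
      ring

theorem symSum_map {f : ℤ → ℚ} (n : ℕ) :
    (C (symSum f n) : ℚ⟦X⟧) = symSum (fun j => C (f j)) n := by
  unfold symSum
  rw [map_sum]

theorem dvd_symSum {a : ℚ⟦X⟧} {f : ℤ → ℚ⟦X⟧} (h : ∀ j, a ∣ f j) (n : ℕ) : a ∣ symSum f n :=
  Finset.dvd_sum fun _ _ => h _

theorem symSum_sub (f g : ℤ → ℚ⟦X⟧) (n : ℕ) :
    symSum (fun j => f j - g j) n = symSum f n - symSum g n := by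
  unfold symSum
  rw [Finset.sum_sub_distrib]

theorem symSum_mul (a : ℚ⟦X⟧) (g : ℤ → ℚ⟦X⟧) (n : ℕ) :
    symSum (fun j => a * g j) n = a * symSum g n := by
  unfold symSum
  rw [Finset.mul_sum]

theorem X_dvd_hexp_sub (b : ℚ) : (X : ℚ⟦X⟧) ∣ hexp b - 1 := by
  have := (dvd_pow_self (X : ℚ⟦X⟧) two_ne_zero).trans (dvd_hexp_lin b)
  have h2 : (X : ℚ⟦X⟧) ∣ C b * X := Dvd.intro_left _ rfl
  have := dvd_add this h2
  exact dvd_of_eq_of_dvd (by ring) this

theorem cable_lead {p : ℕ} {ε : ℤ} (hε : ε = 1 ∨ ε = -1) {J : ℤ → ℚ⟦X⟧} {c : ℚ} {d : ℕ}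
    (h : Lead J c d) : Lead (cableJ p ε J) (p ^ 2 * c) d := by
  intro N
  have e1 : cableJ p ε J N - unknotJ N = N.sign • (hexp (-(p * ε * (N ^ 2 - 1)) / 2) *
      symSum (fun j => hexp (ε * j * (p * j + 2) / 2) * (J (p * j + 1) - unknotJ (p * j + 1)))
        N.natAbs) := by
    rw [← congrFun (cableJ_one p ε hε) N]
    unfold cableJ
    rw [← smul_sub, ← mul_sub, ← symSum_sub]
    simp only [mul_sub]
  have e2 : (C (p ^ 2 * c * (N * ((N : ℚ) ^ 2 - 1))) : ℚ⟦X⟧) * X ^ d = N.sign •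
      (symSum (fun j => C (c * ((p * j + 1 : ℚ) * ((p * j + 1 : ℚ) ^ 2 - 1))) * X ^ d)
        N.natAbs) := by
    have : (fun j : ℤ => (C (c * ((p * j + 1 : ℚ) * ((p * j + 1 : ℚ) ^ 2 - 1))) : ℚ⟦X⟧) * X ^ d)
        = fun j : ℤ => (C c * X ^ d) * C ((p * j + 1 : ℚ) * ((p * j + 1 : ℚ) ^ 2 - 1)) := by
      funext j
      rw [map_mul C c]
      ring
    rw [this, symSum_mul, ← symSum_map, symSum_cubes]
    have hs : (N : ℚ) = N.sign * (N.natAbs : ℚ) := by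
      have := congrArg (fun z : ℤ => (z : ℚ)) (Int.sign_mul_natAbs N)
      simpa only [Int.cast_mul, Int.cast_natCast] using this.symm
    have hs2 : (N : ℚ) ^ 2 = (N.natAbs : ℚ) ^ 2 := by
      have := congrArg (fun z : ℤ => (z : ℚ)) (Int.natAbs_sq N)
      simpa only [Int.cast_pow, Int.cast_natCast] using this.symm
    rw [zsmul_eq_mul, show (p ^ 2 * c * (N * ((N : ℚ) ^ 2 - 1))) =
      (N.sign : ℚ) * (c * (p ^ 2 * ((N.natAbs : ℚ) * ((N.natAbs : ℚ) ^ 2 - 1)))) by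
        rw [hs2]; nth_rewrite 1 [hs]; ring]
    rw [map_mul, map_mul C c]
    have : (C (N.sign : ℚ) : ℚ⟦X⟧) = ((N.sign : ℤ) : ℚ⟦X⟧) := by
      rw [map_intCast]
    rw [this]
    ring
  have e3 : cableJ p ε J N - (unknotJ N + C (p ^ 2 * c * (N * (N ^ 2 - 1))) * X ^ d) =
      N.sign • (hexp (-(p * ε * (N ^ 2 - 1)) / 2) *
      symSum (fun j => hexp (ε * j * (p * j + 2) / 2) * (J (p * j + 1) - unknotJ (p * j + 1)))
        N.natAbs - symSum (fun j => C (c * ((p * j + 1 : ℚ) * ((p * j + 1 : ℚ) ^ 2 - 1))) * X ^ d)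
        N.natAbs) := by
    rw [smul_sub, ← e1, ← e2]
    ring
  rw [e3, ← symSum_mul, ← symSum_sub, zsmul_eq_mul]
  apply Dvd.dvd.mul_left
  apply dvd_symSum
  intro j
  obtain ⟨r, hr⟩ := h (p * j + 1)
  obtain ⟨s, hs⟩ := X_dvd_hexp_sub (-(p * ε * (N ^ 2 - 1)) / 2)
  obtain ⟨t, ht⟩ := X_dvd_hexp_sub (ε * j * (p * j + 2) / 2)
  have hr' : J (p * j + 1) - unknotJ (p * j + 1) =
      C (c * ((p * j + 1 : ℚ) * ((p * j + 1 : ℚ) ^ 2 - 1))) * X ^ d + X ^ (d + 1) * r := by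
    have : J (p * j + 1) - unknotJ (p * j + 1) = (J (p * j + 1) - (unknotJ (p * j + 1) +
        C (c * (((p * j + 1 : ℤ) : ℚ) * (((p * j + 1 : ℤ) : ℚ) ^ 2 - 1))) * X ^ d)) +
        C (c * (((p * j + 1 : ℤ) : ℚ) * (((p * j + 1 : ℤ) : ℚ) ^ 2 - 1))) * X ^ d := by ring
    rw [this, hr]
    push_cast
    ring
  have hs' : hexp (-(p * ε * (N ^ 2 - 1)) / 2) = 1 + X * s := by rw [← hs]; ring
  have ht' : hexp (ε * j * (p * j + 2) / 2) = 1 + X * t := by rw [← ht]; ring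
  rw [hr', hs', ht']
  refine ⟨(1 + X * s) * (1 + X * t) * r + (s + t + X * s * t) *
    C (c * ((p * j + 1 : ℚ) * ((p * j + 1 : ℚ) ^ 2 - 1))), ?_⟩
  ring

theorem cable_one (p : ℕ) (q : ℤ) {J : ℤ → ℚ⟦X⟧} (h : J 1 = 1) : cableJ p q J 1 = 1 := by
  unfold cableJ
  rw [show (1 : ℤ).natAbs = 1 from rfl, symSum_one]
  simp [hexp_zero, h]

theorem Lead.dvd_two {J : ℤ → ℚ⟦X⟧} {c : ℚ} {d : ℕ} (h : Lead J c d) (hd : 2 ≤ d) (N : ℤ) :
    X ^ 2 ∣ J N - unknotJ N := by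
  have h1 : (X : ℚ⟦X⟧) ^ 2 ∣ J N - (unknotJ N + C (c * (N * (N ^ 2 - 1))) * X ^ d) :=
    (pow_dvd_pow _ (by omega)).trans (h N)
  have h2 : (X : ℚ⟦X⟧) ^ 2 ∣ C (c * (N * (N ^ 2 - 1))) * X ^ d :=
    Dvd.dvd.mul_left (pow_dvd_pow _ hd) _
  have := dvd_add h1 h2
  exact dvd_of_eq_of_dvd (by ring) this

theorem main {ι : Type} {F : ι → ℤ → ℚ⟦X⟧} {c : ι → ℚ} {d : ι → ℕ}
    (hodd : ∀ i N, F i (-N) = - F i N) (h1 : ∀ i, F i 1 = 1)
    (hc : ∀ i, c i ≠ 0) (hd : ∀ i, 2 ≤ d i) (hF : ∀ i, Lead (F i) (c i) (d i)) (K : Knot ι) :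
    Adm (colJ F K) ∧ (K.Trivial → colJ F K = unknotJ) ∧
      (¬ K.Trivial → K.lead c ≠ 0 ∧ 2 ≤ K.deg d ∧ Lead (colJ F K) (K.lead c) (K.deg d)) := by
  induction K with
  | unknot => exact ⟨adm_unknotJ, fun _ => rfl, fun h => absurd trivial h⟩
  | seed i =>
    exact ⟨⟨hodd i, h1 i⟩, fun h => h.elim, fun _ => ⟨hc i, hd i, hF i⟩⟩
  | cable p ε hp hε K ih =>
    obtain ⟨ha, ht, hn⟩ := ih
    refine ⟨⟨cableJ_neg _ _ _, cable_one p ε ha.one⟩, ?_, ?_⟩
    · intro h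
      change cableJ p ε (colJ F K) = unknotJ
      rw [ht h, cableJ_one p ε hε]
    · intro h
      obtain ⟨k1, k2, k3⟩ := hn h
      refine ⟨?_, k2, cable_lead hε k3⟩
      change (p : ℚ) ^ 2 * K.lead c ≠ 0
      have : (p : ℚ) ≠ 0 := by
        have : 0 < p := by omega
        exact_mod_cast this.ne'
      exact mul_ne_zero (pow_ne_zero _ this) k1
  | plumb K m L n ihK ihL =>
    obtain ⟨ha, ht, hn⟩ := ihK
    obtain ⟨ha', ht', hn'⟩ := ihL
    refine ⟨⟨plumb_neg _ _ _ _, plumb_one ha.one ha'.one _ _⟩, ?_, ?_⟩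
    · rintro (⟨h, rfl⟩ | ⟨h, rfl⟩)
      · apply plumb_trivial ha.one ha'.one
        intro i hi
        rw [ht h, annulus_unknot i hi, zero_mul]
      · apply plumb_trivial ha.one ha'.one
        intro i hi
        rw [ht' h, annulus_unknot i hi, mul_zero]
    · intro h
      have key : ∀ (K : Knot ι) (m : ℤ), Adm (colJ F K) → (K.Trivial → colJ F K = unknotJ) →
          (¬ K.Trivial → K.lead c ≠ 0 ∧ 2 ≤ K.deg d ∧ Lead (colJ F K) (K.lead c) (K.deg d)) →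
          ¬ (K.Trivial ∧ m = 0) →
          (if m = 0 then K.lead c else (m : ℚ) / 2) ≠ 0 ∧
          1 ≤ (if m = 0 then K.deg d else 1) ∧
          AL (colJ F K) m (if m = 0 then K.lead c else (m : ℚ) / 2)
            (if m = 0 then K.deg d else 1) := by
        intro K m _ ht hn h
        by_cases hm : m = 0
        · subst hm
          simp only [if_true]
          obtain ⟨k1, k2, k3⟩ := hn (fun hK => h ⟨hK, rfl⟩)
          exact ⟨k1, by omega, AL_untwisted k3⟩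
        · simp only [if_neg hm]
          refine ⟨?_, le_rfl, ?_⟩
          · have : (m : ℚ) ≠ 0 := by exact_mod_cast hm
            exact div_ne_zero this two_ne_zero
          · apply AL_twisted
            intro N
            by_cases hK : K.Trivial
            · rw [ht hK, sub_self]
              exact dvd_zero _
            · exact (hn hK).2.2.dvd_two (hn hK).2.1 N
      have h' : ¬ (K.Trivial ∧ m = 0) ∧ ¬ (L.Trivial ∧ n = 0) := by
        constructor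
        · intro h2; exact h (Or.inl h2)
        · intro h2; exact h (Or.inr h2)
      obtain ⟨a1, a2, a3⟩ := key K m ha ht hn h'.1
      obtain ⟨b1, b2, b3⟩ := key L n ha' ht' hn' h'.2
      refine ⟨?_, ?_, plumb_lead ha.one ha'.one a3 b3⟩
      · exact mul_ne_zero (mul_ne_zero (by norm_num) a1) b1
      · change 2 ≤ (if m = 0 then K.deg d else 1) + (if n = 0 then L.deg d else 1)
        omega

theorem detect {ι : Type} {F : ι → ℤ → ℚ⟦X⟧} {c : ι → ℚ} {d : ι → ℕ}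
    (hodd : ∀ i N, F i (-N) = - F i N) (h1 : ∀ i, F i 1 = 1)
    (hc : ∀ i, c i ≠ 0) (hd : ∀ i, 2 ≤ d i) (hF : ∀ i, Lead (F i) (c i) (d i)) (K : Knot ι)
    (N : ℤ) (hN : 2 ≤ N.natAbs) : colJ F K N = unknotJ N ↔ K.Trivial := by
  obtain ⟨_, ht, hn⟩ := main hodd h1 hc hd hF K
  constructor
  · intro h
    by_contra hK
    obtain ⟨k1, _, k3⟩ := hn hK
    have h2 := k3 N
    rw [h, X_pow_dvd_iff] at h2
    have h3 := h2 (K.deg d) (Nat.lt_succ_self _)
    rw [map_sub, map_add, coeff_C_mul_X_pow, if_pos rfl] at h3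
    have h4 : K.lead c * (N * ((N : ℚ) ^ 2 - 1)) = 0 := by linarith
    have hN0 : (N : ℚ) ≠ 0 := by
      have : N ≠ 0 := by omega
      exact_mod_cast this
    have hN1 : ((N : ℚ) ^ 2 - 1) ≠ 0 := by
      have e : ((N : ℚ) ^ 2 - 1) = (N - 1) * (N + 1) := by ring
      rw [e]
      apply mul_ne_zero
      · have : N - 1 ≠ 0 := by omega
        exact_mod_cast this
      · have : N + 1 ≠ 0 := by omega
        exact_mod_cast this
    exact (mul_ne_zero k1 (mul_ne_zero hN0 hN1)) h4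
  · intro h
    rw [ht h]

end

end Pool.Agent.H765.DB
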