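import Mathlib
import Pool.Agent.H765.DB.Main

/-! Non-trivial graph knots have a non-zero second coefficient. -/

namespace Pool.Agent.H765.DB

open PowerSeries GK

noncomputable section

theorem dvd_hexp_quad (b : ℚ) : (X : ℚ⟦X⟧) ^ 3 ∣ hexp b - (1 + C b * X + C (b ^ 2 / 2) * X ^ 2) := by
  rw [X_pow_dvd_iff]
  intro m hm
  rw [map_sub, coeff_hexp, map_add, map_add, coeff_one, coeff_C_mul_X_pow]
  have : coeff m (C b * X : ℚ⟦X⟧) = if m = 1 then b else 0 := by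
    have := coeff_C_mul_X_pow b 1 m
    rwa [pow_one] at this
  rw [this]
  interval_cases m
  · simp
  · simp
  · simp; ring

theorem hexp_quad (b : ℚ) : ∃ r : ℚ⟦X⟧, hexp b = 1 + C b * X + C (b ^ 2 / 2) * X ^ 2 + X ^ 3 * r := by
  obtain ⟨r, hr⟩ := dvd_hexp_quad b
  exact ⟨r, by rw [← hr]; ring⟩

theorem symSum_poly (n : ℕ) : symSum (fun j : ℤ => (C ((j : ℚ)) * X + C ((j : ℚ) ^ 2 / 2) * X ^ 2 :
    ℚ⟦X⟧)) n = C ((n * ((n : ℚ) ^ 2 - 1)) / 6) * X ^ 2 := by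
  induction n using Nat.strong_induction_on with
  | _ n ih =>
    match n, ih with
    | 0, _ => simp [symSum_zero]
    | 1, _ => simp [symSum_one]
    | n + 2, ih =>
      rw [symSum_add_two, ih n (by omega)]
      have e : ((n + 2 : ℕ) : ℚ) * (((n + 2 : ℕ) : ℚ) ^ 2 - 1) / 6 =
        (n * ((n : ℚ) ^ 2 - 1)) / 6 + ((n : ℚ) + 1) ^ 2 := by push_cast; ring
      rw [e, map_add]
      have e2 : (C (((n : ℚ) + 1) ^ 2) : ℚ⟦X⟧) = C ((((n : ℤ) + 1 : ℤ) : ℚ) ^ 2 / 2) +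
          C ((((-((n : ℤ) + 1)) : ℤ) : ℚ) ^ 2 / 2) := by
        rw [← map_add]; congr 1; (try push_cast); (try ring)
      have e3 : (C ((((-((n : ℤ) + 1)) : ℤ) : ℚ)) : ℚ⟦X⟧) = - C ((((n : ℤ) + 1 : ℤ) : ℚ)) := by
        rw [← map_neg]; congr 1; (try push_cast); (try ring)
      rw [e2, e3]
      ring

theorem unknotJ_quad (N : ℤ) : X ^ 3 ∣ unknotJ N - (C (N : ℚ) +
    C ((N * ((N : ℚ) ^ 2 - 1)) / 6) * X ^ 2) := by
  have h : ∀ n : ℕ, X ^ 3 ∣ unknotJ n - (C (n : ℚ) +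
    C ((n * ((n : ℚ) ^ 2 - 1)) / 6) * X ^ 2) := by
    intro n
    rw [unknotJ_natCast, ← symSum_poly]
    have : (C (n : ℚ) : ℚ⟦X⟧) = symSum (fun _ => 1) n := by
      unfold symSum
      simp
    rw [this, sub_add_eq_sub_sub, ← symSum_sub, ← symSum_sub]
    apply dvd_symSum
    intro j
    have := dvd_hexp_quad j
    exact dvd_of_eq_of_dvd (by ring) this
  obtain ⟨n, rfl | rfl⟩ := N.eq_nat_or_neg
  · exact_mod_cast h n
  · rw [unknotJ_neg]
    have := (dvd_neg.mpr (h n))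
    refine dvd_of_eq_of_dvd ?_ this
    have e1 : (C (((-(n : ℤ)) : ℤ) : ℚ) : ℚ⟦X⟧) = - C ((n : ℚ)) := by
      rw [← map_neg]; congr 1; (try push_cast); (try ring)
    have e2 : (C ((((-(n : ℤ)) : ℤ) : ℚ) * ((((-(n : ℤ)) : ℤ) : ℚ) ^ 2 - 1) / 6) : ℚ⟦X⟧) =
        - C ((n * ((n : ℚ) ^ 2 - 1)) / 6) := by
      rw [← map_neg]; congr 1; (try push_cast); (try ring)
    rw [e1, e2]
    ring

theorem Lead.quad {J : ℤ → ℚ⟦X⟧} {c : ℚ} (h : Lead J c 2) (N : ℤ) : ∃ r : ℚ⟦X⟧,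
    J N = C (N : ℚ) + C ((c + 1 / 6) * (N * ((N : ℚ) ^ 2 - 1))) * X ^ 2 + X ^ 3 * r := by
  obtain ⟨r, hr⟩ := h N
  obtain ⟨s, hs⟩ := unknotJ_quad N
  refine ⟨r + s, ?_⟩
  have e : (C ((c + 1 / 6) * (N * ((N : ℚ) ^ 2 - 1))) : ℚ⟦X⟧) =
      C (c * (N * ((N : ℚ) ^ 2 - 1))) + C ((N * ((N : ℚ) ^ 2 - 1)) / 6) := by
    rw [← map_add]; congr 1; ring
  rw [e]
  linear_combination hr + hs

/-- uniqueness of odd solutions modulo an ideal -/
theorem odd_dvd {a : ℚ⟦X⟧} {D : ℤ → ℚ⟦X⟧} {c : ℚ} (hD : ∀ m, D (-m) = - D m)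
    (h : ∀ m : ℤ, a ∣ hexp (c * m) * D (m + 1) - hexp (-(c * m)) * D (m - 1)) (N : ℤ) :
    a ∣ D N := by
  have hz : D 0 = 0 := by
    have h1 := hD 0
    rw [neg_zero] at h1
    have h2 : (2 : ℚ) • D 0 = 0 := by
      rw [two_smul]
      nth_rewrite 1 [h1]
      exact neg_add_cancel _
    exact (smul_eq_zero.mp h2).resolve_left two_ne_zero
  have hinv : ∀ b : ℚ, hexp (-b) * hexp b = 1 := by
    intro b; rw [← hexp_add, neg_add_cancel, hexp_zero]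
  have hn : ∀ n : ℕ, a ∣ D n ∧ a ∣ D (n + 1) := by
    intro n
    induction n with
    | zero =>
      refine ⟨by simp [hz], ?_⟩
      have h1 := h 0
      simp only [Int.cast_zero, mul_zero, neg_zero, hexp_zero, one_mul, zero_add, zero_sub, hD,
        sub_neg_eq_add] at h1
      have h3 : a ∣ C (1 / 2 : ℚ) * (D 1 + D 1) := Dvd.dvd.mul_left h1 _
      have h4 : (C (1 / 2 : ℚ) : ℚ⟦X⟧) * (D 1 + D 1) = D 1 := by
        have : (C (1 / 2 : ℚ) : ℚ⟦X⟧) * 2 = 1 := by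
          have h2 : (2 : ℚ⟦X⟧) = C (2 : ℚ) := (map_ofNat C 2).symm
          rw [h2, ← map_mul C]
          norm_num
        linear_combination (D 1) * this
      rw [h4] at h3
      simpa using h3
    | succ n ih =>
      obtain ⟨h1, h2⟩ := ih
      have h3 := h (n + 1)
      have e1 : ((n : ℤ) + 1 - 1) = n := by ring
      rw [e1] at h3
      refine ⟨by push_cast; exact h2, ?_⟩
      have h4 := dvd_add h3 (Dvd.dvd.mul_left h1 (hexp (-(c * ((n : ℤ) + 1 : ℤ)))))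
      rw [sub_add_cancel] at h4
      have h5 := Dvd.dvd.mul_left h4 (hexp (-(c * ((n : ℤ) + 1 : ℤ))))
      rw [← mul_assoc, hinv, one_mul] at h5
      push_cast
      exact h5
  obtain ⟨n, rfl | rfl⟩ := N.eq_nat_or_neg
  · exact (hn n).1
  · rw [hD]; exact (dvd_neg.mpr (hn n).1)

theorem Lead.of_poly {J : ℤ → ℚ⟦X⟧} {c : ℚ} (hJ : ∀ N, J (-N) = - J N)
    {c0 : ℚ} (h : ∀ m : ℤ, X ^ 3 ∣ (hexp (c0 * m) * J (m + 1) - hexp (-(c0 * m)) * J (m - 1)) -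
      (hexp (c0 * m) * (unknotJ (m + 1) + C (c * (((m + 1 : ℤ) : ℚ) * (((m + 1 : ℤ) : ℚ) ^ 2 - 1))) * X ^ 2)
      - hexp (-(c0 * m)) * (unknotJ (m - 1) + C (c * (((m - 1 : ℤ) : ℚ) * (((m - 1 : ℤ) : ℚ) ^ 2 - 1))) * X ^ 2))) :
    Lead J c 2 := by
  intro N
  apply odd_dvd (D := fun N : ℤ => J N - (unknotJ N + C (c * (N * ((N : ℚ) ^ 2 - 1))) * X ^ 2))
    (c := c0)
  · intro m
    have e2 : (C (c * (((-m : ℤ) : ℚ) * (((-m : ℤ) : ℚ) ^ 2 - 1))) : ℚ⟦X⟧) =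
        - C (c * (m * ((m : ℚ) ^ 2 - 1))) := by
      rw [← map_neg]; congr 1; (try push_cast); (try ring)
    beta_reduce
    rw [hJ, unknotJ_neg, e2]
    ring
  · intro m
    exact dvd_of_eq_of_dvd (by ring) (h m)

/-- the coefficients up to degree two -/
def Tr (f : ℚ⟦X⟧) (a b c : ℚ) : Prop := coeff 0 f = a ∧ coeff 1 f = b ∧ coeff 2 f = c

theorem Tr.mul {f g : ℚ⟦X⟧} {a b c a' b' c' : ℚ} (h : Tr f a b c) (h' : Tr g a' b' c') :
    Tr (f * g) (a * a') (a * b' + b * a') (a * c' + b * b' + c * a') := by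
  obtain ⟨h0, h1, h2⟩ := h
  obtain ⟨k0, k1, k2⟩ := h'
  have e : ∀ n, coeff n (f * g) = ∑ k ∈ Finset.range (n + 1), coeff k f * coeff (n - k) g := by
    intro n
    rw [coeff_mul]
    exact Finset.Nat.sum_antidiagonal_eq_sum_range_succ (fun i j => coeff i f * coeff j g) n
  refine ⟨?_, ?_, ?_⟩
  · rw [e, Finset.sum_range_one, Nat.sub_zero, h0, k0]
  · rw [e, Finset.sum_range_succ, Finset.sum_range_one, Nat.sub_zero, Nat.sub_self, h0, k0, h1, k1]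
  · rw [e, Finset.sum_range_succ, Finset.sum_range_succ, Finset.sum_range_one, Nat.sub_zero,
      Nat.sub_self, show 2 - 1 = 1 from rfl, h0, k0, h1, k1, h2, k2]

theorem Tr.sub {f g : ℚ⟦X⟧} {a b c a' b' c' : ℚ} (h : Tr f a b c) (h' : Tr g a' b' c') :
    Tr (f - g) (a - a') (b - b') (c - c') := by
  obtain ⟨h0, h1, h2⟩ := h
  obtain ⟨k0, k1, k2⟩ := h'
  refine ⟨?_, ?_, ?_⟩
  · rw [map_sub, h0, k0]
  · rw [map_sub, h1, k1]
  · rw [map_sub, h2, k2]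

theorem Tr.add {f g : ℚ⟦X⟧} {a b c a' b' c' : ℚ} (h : Tr f a b c) (h' : Tr g a' b' c') :
    Tr (f + g) (a + a') (b + b') (c + c') := by
  obtain ⟨h0, h1, h2⟩ := h
  obtain ⟨k0, k1, k2⟩ := h'
  refine ⟨?_, ?_, ?_⟩
  · rw [map_add, h0, k0]
  · rw [map_add, h1, k1]
  · rw [map_add, h2, k2]

theorem Tr.dvd {f : ℚ⟦X⟧} {a b c : ℚ} (h : Tr f a b c) (ha : a = 0) (hb : b = 0) (hc : c = 0) :
    X ^ 3 ∣ f := by
  rw [X_pow_dvd_iff]
  intro m hm
  obtain ⟨h0, h1, h2⟩ := h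
  interval_cases m
  · rw [h0, ha]
  · rw [h1, hb]
  · rw [h2, hc]

theorem tr_of_dvd {f : ℚ⟦X⟧} {a b c : ℚ} (h : X ^ 3 ∣ f - (C a + C b * X + C c * X ^ 2)) :
    Tr f a b c := by
  rw [X_pow_dvd_iff] at h
  have e : ∀ m, coeff m (C a + C b * X + C c * X ^ 2 : ℚ⟦X⟧) =
      (if m = 0 then a else 0) + (if m = 1 then b else 0) + (if m = 2 then c else 0) := by
    intro m
    have := coeff_C_mul_X_pow b 1 m
    rw [pow_one] at this
    rw [map_add, map_add, coeff_C, this, coeff_C_mul_X_pow]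
  refine ⟨?_, ?_, ?_⟩
  · have := h 0 (by norm_num)
    rw [map_sub, e] at this
    simp only [if_true, if_neg (show (0 : ℕ) ≠ 1 by norm_num),
      if_neg (show (0 : ℕ) ≠ 2 by norm_num)] at this
    linarith
  · have := h 1 (by norm_num)
    rw [map_sub, e] at this
    simp only [if_true, if_neg (show (1 : ℕ) ≠ 0 by norm_num),
      if_neg (show (1 : ℕ) ≠ 2 by norm_num)] at this
    linarith
  · have := h 2 (by norm_num)
    rw [map_sub, e] at this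
    simp only [if_true, if_neg (show (2 : ℕ) ≠ 1 by norm_num),
      if_neg (show (2 : ℕ) ≠ 0 by norm_num)] at this
    linarith

theorem tr_hexp (b : ℚ) : Tr (hexp b) 1 b (b ^ 2 / 2) := by
  apply tr_of_dvd
  rw [map_one]
  exact dvd_hexp_quad b

theorem tr_unknotJ (N : ℤ) : Tr (unknotJ N) N 0 (N * ((N : ℚ) ^ 2 - 1) / 6) := by
  apply tr_of_dvd
  rw [map_zero, zero_mul, add_zero]
  exact unknotJ_quad N

theorem tr_C (a : ℚ) : Tr (C a * X ^ 2) 0 0 a := by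
  apply tr_of_dvd
  rw [map_zero]
  simp

theorem Lead.tr {J : ℤ → ℚ⟦X⟧} {c : ℚ} (h : Lead J c 2) (N : ℤ) :
    Tr (J N) N 0 ((c + 1 / 6) * (N * ((N : ℚ) ^ 2 - 1))) := by
  obtain ⟨r, hr⟩ := h.quad N
  apply tr_of_dvd
  rw [map_zero, zero_mul, add_zero, hr]
  exact ⟨r, by ring⟩

theorem cable_quad {p : ℕ} {q : ℤ} {J : ℤ → ℚ⟦X⟧} {c : ℚ} (hJ : ∀ N, J (-N) = - J N)
    (h : Lead J c 2) :
    Lead (cableJ p q J) (p ^ 2 * c - ((p : ℚ) ^ 2 - 1) * ((q : ℚ) ^ 2 - 1) / 6) 2 := by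
  apply Lead.of_poly (cableJ_neg _ _ _) (c0 := p * q)
  intro m
  rw [cableJ_diff hJ]
  have h1 := ((tr_hexp (q * m)).mul (h.tr (p * m + 1))).sub
    ((tr_hexp (-(q * m))).mul (h.tr (p * m - 1)))
  have h2 := ((tr_hexp (p * q * m)).mul ((tr_unknotJ (m + 1)).add
    (tr_C ((p ^ 2 * c - ((p : ℚ) ^ 2 - 1) * ((q : ℚ) ^ 2 - 1) / 6) *
      (((m + 1 : ℤ) : ℚ) * (((m + 1 : ℤ) : ℚ) ^ 2 - 1)))))).sub
    ((tr_hexp (-(p * q * m))).mul ((tr_unknotJ (m - 1)).add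
    (tr_C ((p ^ 2 * c - ((p : ℚ) ^ 2 - 1) * ((q : ℚ) ^ 2 - 1) / 6) *
      (((m - 1 : ℤ) : ℚ) * (((m - 1 : ℤ) : ℚ) ^ 2 - 1))))))
  refine (h1.sub h2).dvd ?_ ?_ ?_
  · push_cast; ring
  · push_cast; ring
  · push_cast; ring

theorem sum_quad {J J' : ℤ → ℚ⟦X⟧} {c c' : ℚ} (h : Lead J c 2) (h' : Lead J' c' 2) (hJ : J 0 = 0) :
    Lead (fun N => J N * J' N * (unknotJ N)⁻¹) (c + c') 2 := by
  intro N
  rcases eq_or_ne N 0 with rfl | h0
  · beta_reduce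
    rw [hJ, unknotJ_zero]
    simp
  · obtain ⟨r, hr⟩ := h N
    obtain ⟨s, hs⟩ := h' N
    have hr' : J N = unknotJ N + C (c * (N * (N ^ 2 - 1))) * X ^ 2 + X ^ 3 * r := by
      linear_combination hr
    have hs' : J' N = unknotJ N + C (c' * (N * (N ^ 2 - 1))) * X ^ 2 + X ^ 3 * s := by
      linear_combination hs
    have hu := mul_unknotJ_cancel h0
    beta_reduce
    rw [hr', hs', show ((c + c') * (N * ((N : ℚ) ^ 2 - 1))) = c * (N * ((N : ℚ) ^ 2 - 1)) +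
      c' * (N * ((N : ℚ) ^ 2 - 1)) by ring, map_add]
    refine ⟨r + s + X * (C (c * (N * ((N : ℚ) ^ 2 - 1))) + X * r) *
      (C (c' * (N * ((N : ℚ) ^ 2 - 1))) + X * s) * (unknotJ N)⁻¹, ?_⟩
    linear_combination (unknotJ N + C (c * (N * (N ^ 2 - 1))) * X ^ 2 + X ^ 3 * r +
      C (c' * (N * (N ^ 2 - 1))) * X ^ 2 + X ^ 3 * s) * hu

theorem colouredJones_one (K : GraphKnot) : colouredJones K 1 = 1 := by
  induction K with
  | unknot => exact unknotJ_one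
  | cable p q hp hq K ih => exact cable_one p q ih
  | sum K L hK hL =>
    simp only [colouredJones]
    rw [hK, hL, unknotJ_one]
    simp

/-- non-trivial graph knots are admissible -/
theorem graph_lead (K : GraphKnot) : ∃ c : ℚ, c ≤ 0 ∧ Lead (colouredJones K) c 2 ∧
    (c = 0 → Isotopic K GraphKnot.unknot) := by
  induction K with
  | unknot =>
    refine ⟨0, le_rfl, ?_, fun _ => Isotopic.refl _⟩
    intro N
    simp [colouredJones]
  | cable p q hp hq K ih =>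
    obtain ⟨c, hc, hL, hI⟩ := ih
    have hp1 : (0 : ℚ) < (p : ℚ) ^ 2 - 1 := by
      have : (2 : ℚ) ≤ p := by exact_mod_cast hp
      nlinarith
    have hp2 : (0 : ℚ) < (p : ℚ) ^ 2 := by linarith
    have hq0 : q ≠ 0 := by
      rintro rfl
      have h1 : IsUnit (p : ℤ) := isCoprime_zero_right.mp hq
      rw [Int.isUnit_iff] at h1
      omega
    have hq1 : (0 : ℚ) ≤ (q : ℚ) ^ 2 - 1 := by
      have : 1 ≤ q ^ 2 := by
        have := sq_pos_of_ne_zero (R := ℤ) hq0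
        omega
      have h2 : (1 : ℚ) ≤ (q : ℚ) ^ 2 := by exact_mod_cast this
      linarith
    have t1 : (p : ℚ) ^ 2 * c ≤ 0 := mul_nonpos_of_nonneg_of_nonpos hp2.le hc
    have t2 : 0 ≤ ((p : ℚ) ^ 2 - 1) * ((q : ℚ) ^ 2 - 1) / 6 :=
      div_nonneg (mul_nonneg hp1.le hq1) (by norm_num)
    refine ⟨p ^ 2 * c - ((p : ℚ) ^ 2 - 1) * ((q : ℚ) ^ 2 - 1) / 6, by linarith, ?_, ?_⟩
    · exact cable_quad (colouredJones_odd K) hL
    · intro h0
      have h1 : (p : ℚ) ^ 2 * c = 0 := by linarith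
      have h2 : ((p : ℚ) ^ 2 - 1) * ((q : ℚ) ^ 2 - 1) = 0 := by linarith
      have h3 : c = 0 := (mul_eq_zero.mp h1).resolve_left hp2.ne'
      have h4 : (q : ℚ) ^ 2 - 1 = 0 := (mul_eq_zero.mp h2).resolve_left hp1.ne'
      have h5 : q ^ 2 = 1 := by
        have : (q : ℚ) ^ 2 = 1 := by linarith
        exact_mod_cast this
      have h6 : q = 1 ∨ q = -1 := by
        have h7 : (q - 1) * (q + 1) = 0 := by linear_combination h5
        rcases mul_eq_zero.mp h7 with h8 | h8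
        · left; linarith
        · right; linarith
      exact (Isotopic.cable_congr p q hp hq (hI h3)).trans (Isotopic.torus_one p q h6 hp hq)
  | sum K L ihK ihL =>
    obtain ⟨c, hc, hL, hI⟩ := ihK
    obtain ⟨c', hc', hL', hI'⟩ := ihL
    refine ⟨c + c', by linarith, sum_quad hL hL' (colouredJones_zero K), ?_⟩
    intro h0
    have h1 : c = 0 := by linarith
    have h2 : c' = 0 := by linarith
    exact (Isotopic.sum_congr (hI h1) (hI' h2)).trans (Isotopic.sum_unknot _)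

end

end Pool.Agent.H765.DB
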